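import Pool.Agent.Helper29.CY.Goals

/-!
# Project CY (MP_eaa1a7_co): packet NBR, neighbours of a rigid pair
-/

set_option autoImplicit false

open Module Pool.Agent.Helper29.CY

namespace Pool.Agent.Helper91.CY.NBR

variable {V : Type} [NormedAddCommGroup V] [InnerProductSpace ℝ V]

lemma nspan {a b : V} (h : a ∈ Submodule.span ℝ {b}) (h0 : inner ℝ a b = 0) (ha : ‖a‖ = 1) :
    False := by
  obtain ⟨c, rfl⟩ := Submodule.mem_span_singleton.1 h
  have h1 : inner ℝ (c • b) (c • b) = 0 := by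
    rw [inner_smul_right, h0, mul_zero]
  rw [real_inner_self_eq_norm_sq, ha] at h1
  norm_num at h1

lemma nspan2 {a b : V} (h : a ∈ Submodule.span ℝ {b}) (h0 : |inner ℝ a b| ≤ 1 / 2)
    (ha : ‖a‖ = 1) (hb : ‖b‖ = 1) : False := by
  obtain ⟨c, rfl⟩ := Submodule.mem_span_singleton.1 h
  rw [inner_smul_left, real_inner_self_eq_norm_sq, hb] at h0
  rw [norm_smul, hb, mul_one, Real.norm_eq_abs] at ha
  simp only [RCLike.conj_to_real, one_pow, mul_one] at h0
  rw [ha] at h0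
  norm_num at h0

lemma bes {q y v : V} (hq : ‖q‖ = 1) (hy : ‖y‖ = 1) (hqy : inner ℝ q y = 0) (hv : ‖v‖ = 1) :
    ‖v - inner ℝ v q • q - inner ℝ v y • y‖ ^ 2 = 1 - (inner ℝ v q ^ 2 + inner ℝ v y ^ 2) := by
  have hyq : inner ℝ y q = 0 := by rw [real_inner_comm]; exact hqy
  rw [← real_inner_self_eq_norm_sq]
  simp only [inner_sub_left, inner_sub_right, inner_smul_left, inner_smul_right,
    RCLike.conj_to_real, real_inner_self_eq_norm_sq, hq, hy, hv, hqy, hyq,
    real_inner_comm v q, real_inner_comm v y]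
  ring

lemma bes_le {q y v : V} (hq : ‖q‖ = 1) (hy : ‖y‖ = 1) (hqy : inner ℝ q y = 0) (hv : ‖v‖ = 1) :
    inner ℝ v q ^ 2 + inner ℝ v y ^ 2 ≤ 1 := by
  have := bes hq hy hqy hv
  nlinarith [sq_nonneg ‖v - inner ℝ v q • q - inner ℝ v y • y‖]

lemma bes_mem {q y v : V} (hq : ‖q‖ = 1) (hy : ‖y‖ = 1) (hqy : inner ℝ q y = 0) (hv : ‖v‖ = 1)
    (h : ¬ inner ℝ v q ^ 2 + inner ℝ v y ^ 2 < 1) {P : Submodule ℝ V} (hqP : q ∈ P) (hyP : y ∈ P) :
    v ∈ P := by
  have h1 := bes hq hy hqy hv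
  have h2 : ‖v - inner ℝ v q • q - inner ℝ v y • y‖ ^ 2 = 0 := by
    have := sq_nonneg ‖v - inner ℝ v q • q - inner ℝ v y • y‖
    push Not at h
    linarith
  have h3 : v - inner ℝ v q • q - inner ℝ v y • y = 0 := by
    rw [← norm_eq_zero]
    exact pow_eq_zero_iff (two_ne_zero) |>.1 h2
  have h4 : v = inner ℝ v q • q + inner ℝ v y • y := by
    have : v - (inner ℝ v q • q + inner ℝ v y • y) = 0 := by
      rw [← h3]; abel
    exact sub_eq_zero.1 this
  rw [h4]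
  exact P.add_mem (P.smul_mem _ hqP) (P.smul_mem _ hyP)

lemma li3 {e f f' : V} (he : ‖e‖ = 1) (hf : ‖f‖ = 1) (hf' : ‖f'‖ = 1) (h1 : inner ℝ f e = 0)
    (h2 : inner ℝ f' e = 0) (h3 : |inner ℝ f f'| ≤ 1 / 2) : LinearIndependent ℝ ![e, f, f'] := by
  rw [Fintype.linearIndependent_iff]
  intro g hg
  rw [Fin.sum_univ_three] at hg
  simp only [Matrix.cons_val_zero, Matrix.cons_val_one, Matrix.cons_val_two, Matrix.head_cons,
    Matrix.tail_cons] at hg
  have h1' : inner ℝ e f = 0 := by rw [real_inner_comm]; exact h1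
  have h2' : inner ℝ e f' = 0 := by rw [real_inner_comm]; exact h2
  set t := inner ℝ f f' with ht
  have ht' : inner ℝ f' f = t := by rw [real_inner_comm]
  have k0 := congrArg (fun v => inner ℝ e v) hg
  have k1 := congrArg (fun v => inner ℝ f v) hg
  have k2 := congrArg (fun v => inner ℝ f' v) hg
  simp only [inner_add_right, inner_smul_right, inner_zero_right, real_inner_self_eq_norm_sq, he,
    hf, hf', h1, h2, h1', h2', ← ht, ht'] at k0 k1 k2
  have ht2 : t ^ 2 ≤ 1 / 4 := by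
    have := abs_le.1 h3
    nlinarith
  have g0 : g 0 = 0 := by linarith
  have g1 : g 1 * (1 - t ^ 2) = 0 := by
    have e1 : g 1 + g 2 * t = 0 := by linarith
    have e2 : g 1 * t + g 2 = 0 := by linarith
    have : g 2 = -(g 1 * t) := by linarith
    rw [this] at e1
    linarith
  have g1' : g 1 = 0 := by
    rcases mul_eq_zero.1 g1 with h | h
    · exact h
    · exfalso; linarith
  have g2 : g 2 = 0 := by
    rw [g1'] at k2
    linarith
  intro i
  fin_cases i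
  · exact g0
  · exact g1'
  · exact g2

section

variable {n : ℕ} {N : Fin n → Submodule ℝ V} {u : Fin n → V}

lemma fd (C : Conf N u) (i : Fin n) : FiniteDimensional ℝ (N i) :=
  FiniteDimensional.of_finrank_pos (by rw [C.dim i]; norm_num)

lemma tgt (hB : S_BAS) (C : Conf N u) (i k k' : Fin n) (h1 : Arr N u i k) (h2 : Arr N u i k')
    (hne : k ≠ k') : NR N k k' := by
  obtain ⟨-, -, -, -, htri, -⟩ := hB n V N u C k k' hne
  rcases htri with h | h | h
  · exact h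
  · exact (nspan (h.2.2.2 ⟨h1.2.1, h2.2.1⟩) h1.2.2.1 (C.nrm i)).elim
  · exact (nspan (h.2.2.2 ⟨h2.2.1, h1.2.1⟩) h2.2.2.1 (C.nrm i)).elim

lemma src (hB : S_BAS) (C : Conf N u) (i m k : Fin n) (h1 : Arr N u i k) (h2 : Arr N u m k)
    (hne : i ≠ m) : NR N i m := by
  obtain ⟨-, -, -, -, htri, -⟩ := hB n V N u C i m hne
  rcases htri with h | h | h
  · exact h
  · exact (nspan (h2.2.2.2 ⟨h.2.1, h1.2.1⟩) h.2.2.1 (C.nrm i)).elim
  · exact (nspan (h1.2.2.2 ⟨h.2.1, h2.2.1⟩) h.2.2.1 (C.nrm m)).elim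

lemma mem (hLA : S_LA) (C : Conf N u) (i k l : Fin n) (h1 : Arr N u i k) (h2 : NR N l i)
    (h3 : NR N l k) : u i ∈ N l := by
  obtain ⟨q, hq, hqn⟩ := hLA.1 V (N l) (N l ⊓ N i) (N l ⊓ N k) (C.dim l) inf_le_left inf_le_left
    h2 h3
  have hq1 : q ∈ Submodule.span ℝ {u i} := h1.2.2.2 ⟨hq.1.2, hq.2.2⟩
  obtain ⟨c, hc⟩ := Submodule.mem_span_singleton.1 hq1
  have hc0 : c ≠ 0 := by
    rintro rfl
    rw [zero_smul] at hc
    rw [← hc, norm_zero] at hqn
    norm_num at hqn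
  have h4 : u i = c⁻¹ • q := by
    rw [← hc, smul_smul, inv_mul_cancel₀ hc0, one_smul]
  rw [h4]
  exact (N l).smul_mem _ hq.1.1

/-- two sources of the same member: their normal spaces are different and meet in a plane -/
lemma plane (hLA : S_LA) (hB : S_BAS) (C : Conf N u) (i m m' : Fin n) (h1 : Arr N u m i)
    (h2 : Arr N u m' i) (hne : m ≠ m') : N m ≠ N m' ∧ finrank ℝ ↥(N m ⊓ N m') = 2 := by
  have hhalf := (hB n V N u C m m' hne).1
  have hn : N m ≠ N m' := by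
    intro h
    have h3 : u m' ∈ Submodule.span ℝ {u m} :=
      h1.2.2.2 ⟨by rw [h]; exact C.mem m', h2.2.1⟩
    exact nspan2 h3 (by rw [real_inner_comm]; exact hhalf) (C.nrm m') (C.nrm m)
  refine ⟨hn, le_antisymm (hLA.2.1 V (N m) (N m') (C.dim m) (C.dim m') hn) ?_⟩
  exact src hB C m m' i h1 h2 hne

/-- a source of `i` which lies in the normal space of another source -/
lemma contra (hB : S_BAS) (C : Conf N u) (i m m' : Fin n) (h1 : Arr N u m i)
    (h2 : Arr N u m' i) (hne : m ≠ m') (h : u m ∈ N m') : False := by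
  have hhalf := (hB n V N u C m m' hne).1
  exact nspan2 (h2.2.2.2 ⟨h, h1.2.1⟩) hhalf (C.nrm m) (C.nrm m')

lemma inn (hLA : S_LA) (hHEX : S_HEX) (hB : S_BAS) (C : Conf N u) (i k m m' : Fin n)
    (hik : Arr N u i k) (h1 : Arr N u m i) (h2 : Arr N u m' i) (hne : m ≠ m')
    (hmk : NR N m k) (hmk' : NR N m' k) : False := by
  obtain ⟨hn, hP⟩ := plane hLA hB C i m m' h1 h2 hne
  haveI := fd C m
  haveI := fd C m'
  haveI := fd C i
  haveI := fd C k
  have hhalf := (hB n V N u C m m' hne).1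
  have hW : finrank ℝ ↥(N m ⊔ N m') = 4 := by
    have := Submodule.finrank_sup_add_finrank_inf_eq (N m) (N m')
    rw [hP, C.dim, C.dim] at this
    omega
  have heW : u i ∉ N m ⊔ N m' := by
    intro he
    have hli := li3 (C.nrm i) (C.nrm m) (C.nrm m') h1.2.2.1 h2.2.2.1 hhalf
    have hfin : finrank ℝ ↥(Submodule.span ℝ (Set.range ![u i, u m, u m'])) = 3 := by
      rw [finrank_span_eq_card hli]
      rfl
    have hle : Submodule.span ℝ (Set.range ![u i, u m, u m']) ≤ N i := by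
      rw [Submodule.span_le]
      rintro _ ⟨j, rfl⟩
      fin_cases j
      · exact C.mem i
      · exact h1.2.1
      · exact h2.2.1
    have heq : Submodule.span ℝ (Set.range ![u i, u m, u m']) = N i :=
      Submodule.eq_of_le_of_finrank_le hle (by rw [hfin, C.dim])
    have hle2 : N i ≤ N m ⊔ N m' := by
      rw [← heq, Submodule.span_le]
      rintro _ ⟨j, rfl⟩
      fin_cases j
      · exact he
      · exact (le_sup_left : N m ≤ N m ⊔ N m') (C.mem m)
      · exact (le_sup_right : N m' ≤ N m ⊔ N m') (C.mem m')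
    have h3 : finrank ℝ ↥(N m ⊔ N i) ≤ 4 := by
      rw [← hW]
      exact Submodule.finrank_mono (sup_le le_sup_left hle2)
    have h4 := Submodule.finrank_sup_add_finrank_inf_eq (N m) (N i)
    have h5 : finrank ℝ ↥(N m ⊓ N i) ≤ 1 :=
      (Submodule.finrank_mono h1.2.2.2).trans ((finrank_span_le_card _).trans (by simp))
    rw [C.dim, C.dim] at h4
    omega
  have hPk : N m ⊓ N m' ≤ N k := by
    have h3 : ¬ finrank ℝ ↥((N m ⊓ N k) ⊓ (N m' ⊓ N k)) ≤ 1 := by
      intro h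
      have h4 := hLA.2.2.2 V (N k) (N m ⊓ N k) (N m' ⊓ N k) (C.dim k) inf_le_right inf_le_right
        hmk hmk' h
      have h5 : N k ≤ N m ⊔ N m' := h4.trans (sup_le_sup inf_le_left inf_le_left)
      exact heW (h5 hik.2.1)
    have h4 : (N m ⊓ N k) ⊓ (N m' ⊓ N k) ≤ N m ⊓ N m' :=
      le_inf (inf_le_left.trans inf_le_left) (inf_le_right.trans inf_le_left)
    have h5 : (N m ⊓ N k) ⊓ (N m' ⊓ N k) = N m ⊓ N m' :=
      Submodule.eq_of_le_of_finrank_le h4 (by rw [hP]; omega)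
    rw [← h5]
    exact inf_le_left.trans inf_le_right
  have hmk_ne : N m ≠ N k := by
    intro h
    have h3 : u i ∈ N m ⊓ N i := ⟨by rw [h]; exact hik.2.1, C.mem i⟩
    exact nspan (h1.2.2.2 h3) (by rw [real_inner_comm]; exact h1.2.2.1) (C.nrm i)
  have hmk_ne' : N m' ≠ N k := by
    intro h
    have h3 : u i ∈ N m' ⊓ N i := ⟨by rw [h]; exact hik.2.1, C.mem i⟩
    exact nspan (h2.2.2.2 h3) (by rw [real_inner_comm]; exact h2.2.2.1) (C.nrm i)
  have e1 : N m ⊓ N k ≤ N m ⊓ N m' := by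
    have : N m ⊓ N m' = N m ⊓ N k := Submodule.eq_of_le_of_finrank_le (le_inf inf_le_left hPk)
      (by rw [hP]; exact hLA.2.1 V (N m) (N k) (C.dim m) (C.dim k) hmk_ne)
    exact this.ge
  have e2 : N m' ⊓ N k ≤ N m ⊓ N m' := by
    have : N m ⊓ N m' = N m' ⊓ N k := Submodule.eq_of_le_of_finrank_le (le_inf inf_le_right hPk)
      (by rw [hP]; exact hLA.2.1 V (N m') (N k) (C.dim m') (C.dim k) hmk_ne')
    exact this.ge
  obtain ⟨q, hq, hqn⟩ := hLA.1 V (N m) (N m ⊓ N m') (N m ⊓ N m') (C.dim m) inf_le_left inf_le_left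
    hP.ge hP.ge
  obtain ⟨y, hy, hyn, hqy, hsp⟩ := hLA.2.2.1 V (N m ⊓ N m') q hP hq.1 hqn
  have hmkne : m ≠ k := by rintro rfl; exact hmk_ne rfl
  have hmkne' : m' ≠ k := by rintro rfl; exact hmk_ne' rfl
  obtain ⟨-, -, p1, -, -, -⟩ := hB n V N u C m m' hne
  obtain ⟨-, -, p2, -, -, -⟩ := hB n V N u C m k hmkne
  obtain ⟨-, -, p3, -, -, -⟩ := hB n V N u C m' k hmkne'
  obtain ⟨p1a, p1b⟩ := p1 q y hqn hyn hqy hsp
  obtain ⟨p2a, p2b⟩ := p2 q y hqn hyn hqy (e1.trans hsp)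
  obtain ⟨p3a, p3b⟩ := p3 q y hqn hyn hqy (e2.trans hsp)
  by_cases c1 : inner ℝ (u m) q ^ 2 + inner ℝ (u m) y ^ 2 < 1
  · by_cases c2 : inner ℝ (u m') q ^ 2 + inner ℝ (u m') y ^ 2 < 1
    · exact hHEX _ _ _ _ _ _ c1 c2 (bes_le hqn hyn hqy (C.nrm k)) p1a p1b p2a p2b p3a p3b
    · have := bes_mem hqn hyn hqy (C.nrm m') c2 hq.1 hy
      exact contra hB C i m' m h2 h1 hne.symm this.1
  · have := bes_mem hqn hyn hqy (C.nrm m) c1 hq.1 hy
    exact contra hB C i m m' h1 h2 hne this.2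

lemma out (hLA : S_LA) (hB : S_BAS) (C : Conf N u) (i k m m' : Fin n)
    (h1 : Arr N u m i) (h2 : Arr N u m' i) (hne : m ≠ m') (h3 : Arr N u k m)
    (h4 : Arr N u k m') : False := by
  obtain ⟨hn, hP⟩ := plane hLA hB C i m m' h1 h2 hne
  obtain ⟨w, hw, hwn, hkw, hsp⟩ := hLA.2.2.1 V (N m ⊓ N m') (u k) hP ⟨h3.2.1, h4.2.1⟩ (C.nrm k)
  obtain ⟨-, -, -, pc, -, -⟩ := hB n V N u C m m' hne
  rcases pc (u k) w (C.nrm k) hwn hkw hsp (by rw [real_inner_comm]; exact h3.2.2.1)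
    (by rw [real_inner_comm]; exact h4.2.2.1) with ⟨h, -⟩ | ⟨h, -⟩
  · have : u m ∈ N m ⊓ N m' := by
      rcases h with h | h
      · rw [h]; exact hw
      · rw [h]; exact Submodule.neg_mem _ hw
    exact contra hB C i m m' h1 h2 hne this.2
  · have : u m' ∈ N m ⊓ N m' := by
      rcases h with h | h
      · rw [h]; exact hw
      · rw [h]; exact Submodule.neg_mem _ hw
    exact contra hB C i m' m h2 h1 hne.symm this.1

end

/-- **NBR**. -/
theorem t (hLA : S_LA) (hHEX : S_HEX) (hBAS : S_BAS) : Pool.Agent.Helper29.CY.S_NBR := by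
  intro n V _ _ N u C
  refine ⟨tgt hBAS C, src hBAS C, mem hLA C, inn hLA hHEX hBAS C, out hLA hBAS C⟩

end Pool.Agent.Helper91.CY.NBR
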